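import Mathlib
import Pool.Agent.Q24.SL2

/-!
# A compact group without uncountable normal subgroups of uncountable index

Every normal subgroup of `SL₂(ℤ_p)` either has at most two elements or is open.
-/

set_option autoImplicit false

namespace Pool.Agent.Results.MP_847604_al.NoNormalSubgroup

open Q24.SL2 Topology

variable {p : ℕ} [hp : Fact p.Prime]

theorem norm_p_lt_one : ‖(p : ℤ_[p])‖ < 1 := (PadicInt.norm_lt_one_iff_dvd _).2 dvd_rfl

theorem isOpen_ball (t : ℤ_[p]) (ht : t ≠ 0) : IsOpen {z : ℤ_[p] | ∃ w, z = t * w} := by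
  rw [Metric.isOpen_iff]
  rintro z ⟨w, rfl⟩
  refine ⟨‖t‖, norm_pos_iff.2 ht, fun y hy => ?_⟩
  rw [Metric.mem_ball, dist_eq_norm] at hy
  obtain ⟨v, hv⟩ : t ∣ y - t * w := by
    rcases ValuationRing.dvd_total t (y - t * w) with h | ⟨v, hv⟩
    · exact h
    · exfalso
      have h1 : ‖t‖ ≤ ‖y - t * w‖ := by
        conv_lhs => rw [hv, norm_mul]
        calc ‖y - t * w‖ * ‖v‖ ≤ ‖y - t * w‖ * 1 :=
              mul_le_mul_of_nonneg_left (PadicInt.norm_le_one v) (norm_nonneg _)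
          _ = _ := mul_one _
      exact absurd hy (not_lt.2 h1)
  exact ⟨v + w, by linear_combination hv⟩

theorem isUnit_of {z : ℤ_[p]} (w : ℤ_[p]) (h : z = 1 + p * w) : IsUnit z := by
  rw [PadicInt.isUnit_iff, h]
  have h1 : ‖(p : ℤ_[p]) * w‖ < 1 := by
    rw [norm_mul]
    calc ‖(p : ℤ_[p])‖ * ‖w‖ ≤ ‖(p : ℤ_[p])‖ * 1 :=
          mul_le_mul_of_nonneg_left (PadicInt.norm_le_one w) (norm_nonneg _)
      _ < 1 := by rw [mul_one]; exact norm_p_lt_one
  have h2 : ‖(1 : ℤ_[p])‖ ≠ ‖(p : ℤ_[p]) * w‖ := by rw [norm_one]; exact h1.ne'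
  rw [IsUltrametricDist.norm_add_eq_max_of_norm_ne_norm h2, norm_one, max_eq_left h1.le]

/-- A normal subgroup of `SL₂(ℤ_p)` which contains a non-scalar element is open. -/
theorem isOpen_of_nonscalar {N : Subgroup (SL2 ℤ_[p])} [hN : N.Normal] {g : SL2 ℤ_[p]}
    (hg : g ∈ N) (h : g 1 0 ≠ 0 ∨ g 0 1 ≠ 0 ∨ g 0 0 ≠ g 1 1) : IsOpen (N : Set (SL2 ℤ_[p])) := by
  obtain ⟨g, hg, hc⟩ := exists_conj hg h
  set c := g 1 0 with hcdef
  have hp0 : (p : ℤ_[p]) ≠ 0 := Nat.cast_ne_zero.2 hp.out.ne_zero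
  -- the unit `u = 1 + p ^ 2 c`
  let u : ℤ_[p] := 1 + p * (p * c)
  obtain ⟨v, huv⟩ : ∃ v, u * v = 1 := (isUnit_of _ rfl).exists_right_inv
  have hx : (p ^ 2 * (2 + p ^ 2 * c) * g 1 1) * g 1 0 = (u ^ 2 - 1) * g 1 1 := by
    rw [← hcdef]
    simp only [u]
    ring
  have hndvd : ¬ (p : ℤ_[p]) ^ 2 ∣ 2 := by
    intro hd
    have h2 : p ^ 2 ∣ 2 := by
      have h3 := (PadicInt.norm_int_le_pow_iff_dvd (p := p) (k := 2) (n := 2)).1 (by
        obtain ⟨w, hw⟩ := hd
        have hw' : ((2 : ℤ) : ℤ_[p]) = (p : ℤ_[p]) ^ 2 * w := by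
          push_cast
          exact hw
        rw [hw', norm_mul, norm_pow, PadicInt.norm_p]
        calc ((p : ℝ)⁻¹) ^ 2 * ‖w‖ ≤ ((p : ℝ)⁻¹) ^ 2 * 1 :=
              mul_le_mul_of_nonneg_left (PadicInt.norm_le_one w) (by positivity)
          _ = (p : ℝ) ^ (-((2 : ℕ) : ℤ)) := by
              rw [mul_one, zpow_neg, zpow_natCast, inv_pow])
      exact_mod_cast h3
    have h4 := Nat.le_of_dvd (by norm_num) h2
    have h5 := hp.out.two_le
    nlinarith
  have hu4 : u ^ 4 - 1 ≠ 0 := by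
    have h1 : u ^ 4 - 1 = (p ^ 2 * c) * (2 + p ^ 2 * c) * (u ^ 2 + 1) := by
      simp only [u]
      ring
    rw [h1]
    refine mul_ne_zero (mul_ne_zero (mul_ne_zero (pow_ne_zero _ hp0) hc) ?_) ?_
    · intro h2
      exact hndvd ⟨-c, by linear_combination h2⟩
    · intro h2
      refine hndvd ⟨-c * (2 + p ^ 2 * c), ?_⟩
      simp only [u] at h2
      linear_combination h2
  set t := u ^ 4 - 1 with ht
  have hup : ∀ z, up (t * z) ∈ N := fun z => up_mem_of hg huv hx z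
  -- the congruence subgroup
  have hpt : (p : ℤ_[p]) * t ^ 2 ≠ 0 := mul_ne_zero hp0 (pow_ne_zero _ hu4)
  apply Subgroup.isOpen_of_mem_nhds (g := 1)
  have hcont : ∀ i j : Fin 2, Continuous fun M : SL2 ℤ_[p] => M i j := fun i j =>
    (continuous_apply j).comp (Matrix.SpecialLinearGroup.continuous_apply _ continuous_id i)
  have h0 : {M : SL2 ℤ_[p] | ∃ w, M 0 0 - 1 = p * t ^ 2 * w} ∈ 𝓝 (1 : SL2 ℤ_[p]) := by
    refine ((isOpen_ball _ hpt).preimage ((hcont 0 0).sub continuous_const)).mem_nhds ?_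
    exact ⟨0, by show (1 : ℤ_[p]) - 1 = _; ring⟩
  have h1 : {M : SL2 ℤ_[p] | ∃ w, M 0 1 = p * t ^ 2 * w} ∈ 𝓝 (1 : SL2 ℤ_[p]) := by
    refine ((isOpen_ball _ hpt).preimage (hcont 0 1)).mem_nhds ?_
    exact ⟨0, by show (0 : ℤ_[p]) = _; ring⟩
  have h2 : {M : SL2 ℤ_[p] | ∃ w, M 1 0 = p * t ^ 2 * w} ∈ 𝓝 (1 : SL2 ℤ_[p]) := by
    refine ((isOpen_ball _ hpt).preimage (hcont 1 0)).mem_nhds ?_
    exact ⟨0, by show (0 : ℤ_[p]) = _; ring⟩
  filter_upwards [h0, h1, h2] with M ⟨w0, hw0⟩ ⟨w1, hw1⟩ ⟨w2, hw2⟩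
  have h00 : M 0 0 = 1 + p * (t ^ 2 * w0) := by linear_combination hw0
  obtain ⟨a', ha'⟩ : ∃ v, M 0 0 * v = 1 := (isUnit_of _ h00).exists_right_inv
  exact mem_of_cong hup M ha' (α := p * w0) (by rw [h00]; ring) (β := p * t * w1)
    (by rw [hw1]; ring) (γ := p * t * w2) (by rw [hw2]; ring)

theorem uncountable_padicInt : Uncountable ℤ_[p] := by
  rw [← not_countable_iff]
  intro hcount
  have hU : ⋃ x : ℤ_[p], ({x} : Set ℤ_[p]) = Set.univ := Set.iUnion_of_singleton _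
  obtain ⟨x, y, hy⟩ := nonempty_interior_of_iUnion_of_closed (fun x : ℤ_[p] => isClosed_singleton) hU
  have hyx : y = x := by simpa using interior_subset hy
  subst hyx
  rw [mem_interior_iff_mem_nhds, Metric.mem_nhds_iff] at hy
  obtain ⟨ε, hε, hb⟩ := hy
  obtain ⟨n, hn⟩ := exists_pow_lt_of_lt_one hε (norm_p_lt_one (p := p))
  have h1 : y + (p : ℤ_[p]) ^ n ∈ Metric.ball y ε := by
    rw [Metric.mem_ball, dist_eq_norm, add_sub_cancel_left, norm_pow]
    exact hn
  have h2 := hb h1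
  rw [Set.mem_singleton_iff, add_eq_left] at h2
  exact pow_ne_zero n (Nat.cast_ne_zero.2 hp.out.ne_zero) h2

theorem uncountable_SL2 : Uncountable (SL2 ℤ_[p]) :=
  haveI := uncountable_padicInt (p := p)
  up_injective.uncountable

instance : CompactSpace (Matrix (Fin 2) (Fin 2) ℤ_[p]) :=
  inferInstanceAs (CompactSpace (Fin 2 → Fin 2 → ℤ_[p]))

instance : TotallyDisconnectedSpace (Matrix (Fin 2) (Fin 2) ℤ_[p]) :=
  inferInstanceAs (TotallyDisconnectedSpace (Fin 2 → Fin 2 → ℤ_[p]))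

instance : TopologicalSpace.MetrizableSpace (Matrix (Fin 2) (Fin 2) ℤ_[p]) :=
  inferInstanceAs (TopologicalSpace.MetrizableSpace (Fin 2 → Fin 2 → ℤ_[p]))

theorem emb : IsClosedEmbedding ((↑) : SL2 ℤ_[p] → Matrix (Fin 2) (Fin 2) ℤ_[p]) :=
  Matrix.SpecialLinearGroup.isClosedEmbedding_val

instance : CompactSpace (SL2 ℤ_[p]) := emb.compactSpace

instance : TopologicalSpace.MetrizableSpace (SL2 ℤ_[p]) := emb.isEmbedding.metrizableSpace

theorem nonarch (U : Set (SL2 ℤ_[p])) (hU : U ∈ 𝓝 (1 : SL2 ℤ_[p])) :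
    ∃ V : Subgroup (SL2 ℤ_[p]), IsOpen (V : Set (SL2 ℤ_[p])) ∧ (V : Set (SL2 ℤ_[p])) ⊆ U := by
  have : TotallyDisconnectedSpace (SL2 ℤ_[p]) :=
    ⟨emb.isEmbedding.isTotallyDisconnected (isTotallyDisconnected_of_totallyDisconnectedSpace _)⟩
  obtain ⟨W, hWU, hW, h1⟩ := mem_nhds_iff.1 hU
  obtain ⟨V, hV⟩ := ProfiniteGrp.exist_openNormalSubgroup_sub_open_nhds_of_one hW h1
  exact ⟨V.toSubgroup, V.isOpen', fun x hx => hWU (hV hx)⟩

/-- There is an uncountable compact metrizable group `G`, with a base of neighbourhoods of the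
identity consisting of open subgroups, which has no normal subgroup (Borel, analytic or not) that is
uncountable and of uncountable index. In fact every normal subgroup of `G` is finite or open (and
then it has finite index). -/
theorem result : ∃ (G : Type) (_ : Group G) (_ : TopologicalSpace G), IsTopologicalGroup G ∧
    CompactSpace G ∧ TopologicalSpace.MetrizableSpace G ∧ Uncountable G ∧
    (∀ U ∈ 𝓝 (1 : G), ∃ V : Subgroup G, IsOpen (V : Set G) ∧ (V : Set G) ⊆ U) ∧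
    (∀ N : Subgroup G, N.Normal →
      Finite N ∨ (IsOpen (N : Set G) ∧ Finite (G ⧸ N))) ∧
    ¬ ∃ N : Subgroup G, N.Normal ∧ Uncountable N ∧ Uncountable (G ⧸ N) := by
  have : Fact (Nat.Prime 2) := ⟨Nat.prime_two⟩
  have key : ∀ N : Subgroup (SL2 ℤ_[2]), N.Normal →
      Finite N ∨ (IsOpen (N : Set (SL2 ℤ_[2])) ∧ Finite (SL2 ℤ_[2] ⧸ N)) := by
    intro N hN
    by_cases h : ∃ g ∈ N, (g : SL2 ℤ_[2]) 1 0 ≠ 0 ∨ g 0 1 ≠ 0 ∨ g 0 0 ≠ g 1 1
    · obtain ⟨g, hg, h⟩ := h
      have hopen := isOpen_of_nonscalar hg h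
      exact Or.inr ⟨hopen, Subgroup.quotient_finite_of_isOpen N hopen⟩
    · left
      push Not at h
      have hsub : (N : Set (SL2 ℤ_[2])) ⊆ {1, -1} := by
        intro g hg
        obtain ⟨h1, h2, h3⟩ := h g hg
        have h4 := det2 g
        rw [h1, ← h3] at h4
        have h5 : (g 0 0 - 1) * (g 0 0 + 1) = 0 := by linear_combination h4
        rcases mul_eq_zero.1 h5 with h6 | h6
        · left
          exact ext2 (by rw [one_00]; linear_combination h6) (by rw [h2, one_01])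
            (by rw [h1, one_10]) (by rw [one_11, ← h3]; linear_combination h6)
        · right
          refine ext2 ?_ ?_ ?_ ?_
          · show g 0 0 = -1
            linear_combination h6
          · rw [h2]
            show (0 : ℤ_[2]) = -0
            ring
          · rw [h1]
            show (0 : ℤ_[2]) = -0
            ring
          · rw [← h3]
            show g 0 0 = -1
            linear_combination h6
      exact ((Set.toFinite _).subset hsub).to_subtype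
  refine ⟨SL2 ℤ_[2], inferInstance, inferInstance, inferInstance, inferInstance, inferInstance,
    uncountable_SL2, nonarch, key, ?_⟩
  rintro ⟨N, hN, h1, h2⟩
  rcases key N hN with h | ⟨-, h⟩
  · exact (not_countable_iff.2 h1) inferInstance
  · exact (not_countable_iff.2 h2) inferInstance

end Pool.Agent.Results.MP_847604_al.NoNormalSubgroup
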